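import Mathlib
import Pool.Agent.Helper43.Gm.Goals2
import Pool.Agent.Helper43.Gm.Defs
import Pool.Agent.Helper18.Tw.Pen
import Pool.Agent.Lead.RwMain

/-!
Statements of the packets (MP_d3128a_ag): the window depends only on the small multiplicities, and
almost all sequences of multiplicities are fine in every degree. `T k = k (k+1) / 2 = choose (k+1) 2`.
-/

set_option autoImplicit false

namespace Pool.Agent.Helper43.Gr

open Finset
open Pool.Agent.Helper43.Gm (st mv nn SS Run Pri)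
open Pool.Agent.Lead.Sh (Inj rows triD)
open Pool.Agent.Lead.Rw (Ind')
open Helper18.Cusp (Concl)

/-- the points of multiplicity more than `M` leave a triangle of side `3 ν c + 1` free -/
def SCond (M R N : ℕ) (ν : ℕ → ℕ) : Prop :=
  ∀ c < N, M < ν c →
    ∑ i ∈ range (c + 1), (ν i + 1).choose 2 + (3 * ν c + 2).choose 2 ≤ (R + 1).choose 2

/-- R0 (partial sums). Let `1 ≤ R`. `c < κ (R-1)`: extend the run by `κ y = κ (R-1)`, `x y = 0` for `y ≥ R` to
`R + M` rows (values on `y < R` do not change) and use `Gm.GoalC` with `z0 = R - 1`. `c = κ (R-1)`: the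
values are the `x y` of the rows with `κ y = c`, an end segment, `0` and then strictly increasing and
`≤ ν c`, so their sum is at most `1 + … + ν c`. `c > κ (R-1)`: all values are `0`. -/
def GoalR0 : Prop := ∀ (M R : ℕ) (ν κ x : ℕ → ℕ), Run M R ν κ x → ∀ c,
  ∑ y ∈ range R, nn κ x ν c y ≤ (ν c + 1).choose 2

/-- R1 (the graded greedy game; rows of length `R - y`). Adapt `Gm.PkD` (file Helper43/Gm/D.lean, 511 lines;
`extend`, `T_moved`, `T_still`, `fill`, `drop` can be reused, `M` there being `max M (ν 0)`). Bad rows: `0 < y`,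
`R < y + 2M` (length `< 2M`): there only full points, `x y = 0`; the other rows are filled exactly.
Claim A: if `M < ν c` and `c` has started at the row `a` (`a` = first row with `c < κ a`, or
`c = κ a, 0 < x a`), all rows `< a` being filled (`R - z ≤ SS z`), then `3 ν c + 2 ≤ R - a`: `∑_{z < a} (R - z) ≤
∑_{z<a} SS z = ∑_{c' < c} ∑_{z<a} nn c' z ≤ ∑_{c'<c} choose (ν c' + 1) 2` by R0, so
`choose (R - a + 1) 2 ≥ choose (R+1) 2 - ∑_{c'<c} … > choose (3 ν c + 2) 2` by SCond. As `nn c y > 0` implies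
`y < a + ν c`, at such a row `2 ν c + 2 < R - y` (the same for a moving point). Step from `y` to a good row
`y + 1` (so `2M + 1 ≤ R - y = SS y`): every point with a positive value at `y` (old, or moving) has
`2 ν + 1 ≤ R - y` (by Claim A, or as `ν ≤ M`), so there are at least 3 such points, at least 2 old ones if
`0 < x y`, 3 if `x y = 0`; the old ones drop by one each: `A ≤ (R - y) - x y - o`. If `x y = 0`: `A < R - y - 1`,
`fill`. If `0 < x y`: `need = R - y - 1 - A ≥ x y + 1`; keep the point if `need ≤ ν (κ y)`, else make it old and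
`fill`. Step to a bad row: as in `choice`; all points with `0 < x y` or newly started have `ν ≤ M` (Claim A:
otherwise `2 ν c + 2 < R - y ≤ 2M`, resp. `3 ν c + 2 ≤ R - (y+1)`), so the excess stays `≤ M` (`E' ≤ M - 1` after
adding, `≤ ν (κ y) ≤ M` if only the moving one is added, `≤ E` if nothing is added). Row 0: `fill`. -/
def GoalR1 : Prop := ∀ (M R : ℕ) (ν : ℕ → ℕ), 1 ≤ M → (∀ c, 1 ≤ ν c) → Antitone ν →
  (∀ N, SCond M R N ν) →
  ∃ κ x : ℕ → ℕ, Run (max M (ν 0)) R ν κ x ∧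
    (∀ y < R, R - y ≤ SS κ x ν y ∧ SS κ x ν y ≤ R - y + M) ∧
    (∀ y < R, (y = 0 ∨ y + 2 * M ≤ R) → SS κ x ν y = R - y) ∧
    (∀ y < R, 0 < y → R < y + 2 * M → x y = 0)

/-- R2 (filling). Assume R1 (and `Gm.GoalB`, `Gm.GoalC`). As `Gm.GoalE1`. `R ≥ 2`: the row `R - 1` is bad, `x (R-1) = 0`,
`K = κ (R-1)`, extend by `κ y = K`, `x y = 0` for `y ≥ R`: on `R + max M (ν 0)` rows all `c < K` are complete
(`GoalC`), and at the row `R + t` they give together at most `SS (R-1) - 1 - t ≤ M - t`; so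
`∑_{c<K} choose (ν c + 1) 2 ≤ choose (R+1) 2 + M (2M-1) + M (M+1)/2` (at most `2M - 1` bad rows, excess `≤ M`), hence
`K ≤ N`; values `nn`, prices from `GoalB`. `R = 1`: one row of length 1, `SS 0 = 1`; `N ≥ 1` is enough if
`κ 0 = 0`; if `κ 0 ≥ 1` then `SS 0 ≥ ∑_{c < κ 0} ν c`, so `κ 0 = 1`, `x 0 = 0`. -/
def GoalR2 : Prop := ∀ (M R N : ℕ) (ν : ℕ → ℕ), 1 ≤ M → 1 ≤ R → (∀ c, 1 ≤ ν c) → Antitone ν →
  (∀ N', SCond M R N' ν) →
  2 * (R + 1).choose 2 + 5 * M * M ≤ 2 * ∑ c ∈ range N, (ν c + 1).choose 2 + M →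
  ∃ (n : ℕ → ℕ → ℕ) (π ε : ℕ → ℤ), Pri R ν n π ε N ∧ ∀ y < R, R - y ≤ ∑ c ∈ range N, n c y

/-- R3 (packing). Assume R0, R1 (and `Gm.GoalB`, `Gm.GoalC`). As `Gm.GoalE2`. If `R < 2M` then
`choose (R+1) 2 ≤ M (2M-1)` and `N = 0`. Otherwise `J = R + 1 - 2M ≥ 1`: the rows `y < J` are exact,
`∑_{y ≥ J} (R - y) = M (2M-1)`. `K = κ (J-1) + (if 0 < x (J-1) then 1 else 0)`; extend the run on `[0, J)` by `κ y = K`,
`x y = 0` for `y ≥ J`. `∑_{c<N} choose ≤ ∑_{y<J} (R - y) = ∑_{c<K} ∑_{y<J} nn ≤ ∑_{c<K} choose` (R0), so `N ≤ K`. If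
`N ≤ κ (J-1)`: from `y = J - 1` on the sum of the first `N` starts `≤ R - (J-1)` and drops by at least one per
row while positive, so it is `≤ R - y`, and `0` at the row `R`: all `c < N` are complete on `y < R`. If
`N = κ (J-1) + 1`: equality everywhere, all `c < N` have given everything before the row `J`. -/
def GoalR3 : Prop := ∀ (M R N : ℕ) (ν : ℕ → ℕ), 1 ≤ M → (∀ c, 1 ≤ ν c) → Antitone ν →
  (∀ N', SCond M R N' ν) →
  ∑ c ∈ range N, (ν c + 1).choose 2 + M * (2 * M - 1) ≤ (R + 1).choose 2 →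
  ∃ (n : ℕ → ℕ → ℕ) (π ε : ℕ → ℤ), Pri R ν n π ε N ∧ (∀ y < R, ∑ c ∈ range N, n c y ≤ R - y) ∧
    ∑ y ∈ range R, ∑ c ∈ range N, n c y = ∑ c ∈ range N, (ν c + 1).choose 2

/-- R4 (triangle). Assume `Gm.GoalA`, R2, R3. Replace `ν` by `ν' c = if c < N then ν c else 1` (same `rows`).
`p = 0`, `R = d + 1`, `s = 0`: the row `y` of `triD 0 d` (the cells `(a, y)`) has `R - y` cells. As in
`Gm.PkF1`, `Gm.PkF2` (Helper58/Gm/F1.lean, Helper49/Gm/F2.lean), only simpler. -/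
def GoalR4 : Prop := ∀ (M d N : ℕ) (ν : ℕ → ℕ), 1 ≤ M → (∀ c < N, 1 ≤ ν c) →
  (∀ c c', c ≤ c' → c' < N → ν c' ≤ ν c) → SCond M (d + 1) N ν →
  (2 * (d + 2).choose 2 + 5 * M * M ≤ 2 * ∑ c ∈ range N, (ν c + 1).choose 2 + M →
    Inj (triD 0 d) (rows ν (range N))) ∧
  (∑ c ∈ range N, (ν c + 1).choose 2 + M * (2 * M - 1) ≤ (d + 2).choose 2 →
    Ind' (triD 0 d) (rows ν (range N)))

/-- R5 (window theorem with small multiplicities). Assume R4. As `Gm.GoalG2` (Helper29/Gm/G2.lean), with `M` in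
place of `m 0` (`M = m 0` is that theorem). First alternative: the `N` points with `m i ≥ 2`. -/
def GoalR5 : Prop := ∀ (s : ℕ) (m : ℕ → ℕ) (d M : ℕ), Antitone m → (∀ i, s ≤ i → m i = 0) → 1 ≤ M →
  (∀ i, M < m i →
    ∑ j ∈ range (i + 1), (m j + 1).choose 2 + (3 * m i + 2).choose 2 ≤ (d + 2).choose 2) →
  (2 * (M : ℤ) ^ 2 - M ≤ ((Finset.univ.filter (fun i : Fin s => m (i : ℕ) = 1)).card : ℤ) +
      ((Nat.choose (d + 2) 2 : ℤ) - ∑ i : Fin s, (Nat.choose (m (i : ℕ) + 1) 2 : ℤ)) ∨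
    5 * (M : ℤ) ^ 2 - M ≤
      -2 * ((Nat.choose (d + 2) 2 : ℤ) - ∑ i : Fin s, (Nat.choose (m (i : ℕ) + 1) 2 : ℤ))) →
  Concl s m d

/-- R6 (graded multiplicities). Assume R5. For `k > K` occurring among the `m i` let `S k = ∑_{m j < k} choose (m j + 1) 2
≥ 10 k²`. The hypothesis of R5 for `M` holds if `e + S k ≥ choose (3k+2) 2` for all occurring `k > M`
(`∑_{j ≤ i} ≤ ∑_j - S (m i)`). If this holds with `M = K`, apply R5 with `M = K`. Otherwise let `M > K` be the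
largest `k` for which it fails: `-2e > 20 M² - (3M+1)(3M+2) = 11M² - 9M - 2 ≥ 5M² - M` as `M ≥ 2`: R5, second
alternative. -/
def GoalR6 : Prop := ∀ (s : ℕ) (m : ℕ → ℕ) (d K : ℕ), Antitone m → (∀ i, s ≤ i → m i = 0) → 1 ≤ K →
  (∀ i, K < m i →
    10 * m i ^ 2 ≤ ∑ j ∈ (range s).filter (fun j => m j < m i), (m j + 1).choose 2) →
  (2 * (K : ℤ) ^ 2 - K ≤ ((Finset.univ.filter (fun i : Fin s => m (i : ℕ) = 1)).card : ℤ) +
      ((Nat.choose (d + 2) 2 : ℤ) - ∑ i : Fin s, (Nat.choose (m (i : ℕ) + 1) 2 : ℤ)) ∨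
    5 * (K : ℤ) ^ 2 - K ≤
      -2 * ((Nat.choose (d + 2) 2 : ℤ) - ∑ i : Fin s, (Nat.choose (m (i : ℕ) + 1) 2 : ℤ))) →
  Concl s m d

/-- for general points `P i`, the forms of degree `d` with multiplicity `≥ m i` at `P i` form a space of
the expected dimension -/
def NSf (s : ℕ) (m : Fin s → ℕ) (d : ℕ) : Prop :=
  ∃ G : MvPolynomial (Fin s × Fin 3) ℂ, G ≠ 0 ∧
    ∀ P : Fin s → Fin 3 → ℂ, (∀ i, P i ≠ 0) →
      MvPolynomial.eval (fun ij : Fin s × Fin 3 => P ij.1 ij.2) G ≠ 0 →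
      (Module.finrank ℂ
        (↥(MvPolynomial.homogeneousSubmodule (Fin 3) ℂ d ⊓
          ⨅ i : Fin s, Submodule.restrictScalars ℂ
            ((Ideal.span {g : MvPolynomial (Fin 3) ℂ |
                g.IsHomogeneous 1 ∧ MvPolynomial.eval (P i) g = 0}) ^ (m i)
              : Ideal (MvPolynomial (Fin 3) ℂ)))) : ℤ)
        = max ((Nat.choose (d + 2) 2 : ℤ) - ∑ i : Fin s, (Nat.choose (m i + 1) 2 : ℤ)) 0

/-- `K`-graded sequences -/
def Graded (s : ℕ) (m : Fin s → ℕ) (K : ℕ) : Prop :=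
  ∀ i, K < m i →
    10 * m i ^ 2 ≤ ∑ j ∈ Finset.univ.filter (fun j => m j < m i), (m j + 1).choose 2

/-- R7 (any order). Assume R6. Sort: a permutation `σ` of `Fin s` with `m ∘ σ` antitone (`Tuple.sort`), extend by
`0` to `ℕ`; R6; the conclusion is invariant under permutations (rename the variables of `G`, reindex the
infimum and the sums). -/
def GoalR7 : Prop := ∀ (s : ℕ) (m : Fin s → ℕ) (d K : ℕ), 1 ≤ K → Graded s m K →
  (2 * (K : ℤ) ^ 2 - K ≤ ((Finset.univ.filter (fun i : Fin s => m i = 1)).card : ℤ) +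
      ((Nat.choose (d + 2) 2 : ℤ) - ∑ i : Fin s, (Nat.choose (m i + 1) 2 : ℤ)) ∨
    5 * (K : ℤ) ^ 2 - K ≤
      -2 * ((Nat.choose (d + 2) 2 : ℤ) - ∑ i : Fin s, (Nat.choose (m i + 1) 2 : ℤ))) →
  NSf s m d

/-- the sequences in `[1, M] ^ s` -/
def Om (s M : ℕ) : Finset (Fin s → ℕ) := Fintype.piFinset (fun _ : Fin s => Icc 1 M)

/-- R8a (blocks). Take `q = s / b` disjoint blocks of `b` indices. A sequence of the set has more than `q / 2`
blocks without an element of `B`. For one block the number of sequences without an element of `B` in the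
block is `(M - |B|) ^ b M ^ (s - b)`; double counting: `q (1 - |B|/M) ^ b M ^ s ≥ (q/2) * #set`. (If `q = 0` the set
is empty.) -/
def GoalR8a : Prop := ∀ (s M b : ℕ) (B : Finset ℕ), 1 ≤ M → 1 ≤ b → B ⊆ Icc 1 M →
  (((Om s M).filter (fun m => 2 * (Finset.univ.filter (fun i => m i ∈ B)).card < s / b)).card : ℝ) ≤
    2 * (1 - (B.card : ℝ) / M) ^ b * (M : ℝ) ^ s

open Classical in
/-- R8b (most sequences are graded). Assume R8a. Let `q = 640`, `b = s / 640` (`s` is large, see below), so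
`640 ≤ s / b`. For `j ≥ 1` let `B j = Ioc (2^(j-1)) (2^j)`, `B 0 = {1}`. If for every `j` with `K < 2^(j+1)`, `2^j < M` at
least 320 indices `i` have `m i ∈ B j`, then `m` is `K`-graded: for `k = m i > K` (so `k ≥ 2`) choose `j` with
`2^j < k ≤ 2^(j+1)`; each of the 320 indices has `m < k` and `choose (m+1) 2 ≥ 4^j / 8`, and
`320 * 4^j / 8 = 40 * 4^j ≥ 10 k²`. For a `j` of this kind `B j ⊆ [1, M]`, `|B j| ≥ 2^j / 2`, and by R8a the number of
exceptions is at most `2 exp (- b 2^j / (2M)) M^s`. Let `j0` be the least such `j`: `2^j0 > K/2`, so with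
`u = b K / (4M)` the sum over `j = j0 + i` is at most `2 ∑_i exp (- 2^i u) ≤ 2 ∑_i exp (- (i+1) u) ≤ 4 exp (-u)` if
`u ≥ 1`. With `C = 10^4 (1 + log (4/ε))`: if there is such a `j` then `K ≤ 2M`, so `s ≥ C M / K ≥ C / 2` is large,
`b ≥ s / 1280`, and `u ≥ s K / (5120 M) ≥ C / 5120`. -/
def GoalR8b : Prop := ∀ ε : ℝ, 0 < ε → ∃ C : ℝ, 1 ≤ C ∧ ∀ s M K : ℕ, 1 ≤ M → 1 ≤ K →
  C * M ≤ K * s → (((Om s M).filter (fun m => ¬ Graded s m K)).card : ℝ) ≤ ε * (M : ℝ) ^ s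

open Classical in
/-- R8c (most sequences are not near critical). Assume R8a. Let `w = 3 K² ≤ 12 C² M² / s²`. Write `s = s' + 1`, `m =`
(first `s'` entries, last entry `x`), `A = ∑_{first} choose (m i + 1) 2`. (1) R8a with `B = Icc (M/2 + 1) M` (`|B| ≥ M/2`)
and `b` with `2 * 2^(-b) ≤ ε/4`, for `s'`: except for `(ε/4) M^s'` sequences at least `(s'/b - 1)/2` entries are
`> M/2`, so `A ≥ c1 s M²` with `c1 = 1/(64 b)` for large `s`. (2) Fix such a beginning. Let `δ = ε/4`. Count the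
`x ∈ [1, M]` with `|choose (R+1) 2 - A - choose (x+1) 2| < w` for some `R`: at most `δM` have `x < δM`. For one `R` the
`x ≥ δM` are at most `2w/(δM) + 1` (consecutive values of `choose (x+1) 2` differ by more than `δM`). The relevant
`R` have `A - w < choose (R+1) 2 < A + M² + w`, `w ≤ A/2`, `w ≤ M²`: `R ≥ √(A/2)`, and their number is
`≤ 3M²/√(A/2) + 1 ≤ c2 M/√s + 1`. Total `≤ δM + (c2 M/√s + 1)(24 C² M/(δ s²) + 1)`; here
`c2 M/√s ≤ δM/4`, `1 ≤ δM/4` (as `M ≥ s/C`), `24 C² M/(δ s²) ≤ δM/8`.. for large `s`, and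
`c2 (M/√s) * 24 C² M/(δ s²) = (24 C² c2/δ) M * (M/s^(5/2)) ≤ δM/4` if `M ≤ η s^(5/2)`, `η` small. -/
def GoalR8c : Prop := ∀ C ε : ℝ, 1 ≤ C → 0 < ε → ∃ η : ℝ, 0 < η ∧ ∃ s0 : ℕ, ∀ s M K : ℕ, s0 ≤ s →
  (s : ℝ) ≤ C * M → (M : ℝ) ≤ η * (s : ℝ) ^ ((5 : ℝ) / 2) → (K : ℝ) * s ≤ 2 * C * M →
  (((Om s M).filter (fun m => ∃ R : ℕ,
      |((R + 1).choose 2 : ℤ) - ∑ i, ((m i + 1).choose 2 : ℤ)| < 3 * (K : ℤ) ^ 2)).card : ℝ) ≤
    ε * (M : ℝ) ^ s

open Classical in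
/-- R9 (almost all sequences). Assume R7, R8b, R8c. Let `C` be the constant of R8b for `ε/2`. If `C M ≤ s`: take
`K = 1` (`s ≥ 3`); a `1`-graded sequence is fine in every degree by R7: `1 ≤ n + e` or `4 ≤ -2e`, since `n ≥ 3`
(`n` = number of `1`s; if some `m i ≥ 2`, let `k` be the least of these: `n ≥ 10 k² ≥ 40`; otherwise `n = s`).
If `s < C M`: `K = ⌈C M / s⌉₊`, `K s ≤ 2 C M`; R8b and R8c (with `ε/2`); for the others `|e| ≥ 3K²` for every `d`, so
`2K² - K ≤ n + e` or `5K² - K ≤ -2e`: R7. -/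
def GoalR9 : Prop := ∀ ε : ℝ, 0 < ε → ∃ η : ℝ, 0 < η ∧ ∃ s0 : ℕ, ∀ s M : ℕ, s0 ≤ s → 1 ≤ M →
  (M : ℝ) ≤ η * (s : ℝ) ^ ((5 : ℝ) / 2) →
  (((Om s M).filter (fun m => ∃ d, ¬ NSf s m d)).card : ℝ) ≤ ε * (M : ℝ) ^ s

end Pool.Agent.Helper43.Gr
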