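import Mathlib
import Pool.Agent.Helper82.Gr.R0
import Pool.Agent.Helper16.Gr.R1
import Pool.Agent.Helper93.Gr.R2
import Pool.Agent.Helper8.Gr.R3
import Pool.Agent.Helper35.Gr.R4
import Pool.Agent.Helper35.Gr.R5
import Pool.Agent.Helper11.Gr.R6
import Pool.Agent.Helper61.Gr.R7
import Pool.Agent.Helper80.Gr.R8a
import Pool.Agent.Helper80.Gr.R8b
import Pool.Agent.Helper67.Gr.R8c
import Pool.Agent.Helper61.Gr.R9
import Pool.Agent.Helper43.Gm.Main

/-!
Assembly: almost all sequences of multiplicities are non-special in every degree.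
-/

set_option autoImplicit false

namespace Pool.Agent.Helper43.Gr

theorem goalR0 : GoalR0 := PkR0.goalR0 Pool.Agent.Helper43.Gm.PkC.goalC
theorem goalR1 : GoalR1 := PkR1.goalR1 goalR0
theorem goalR2 : GoalR2 :=
  PkR2.goalR2 Pool.Agent.Helper43.Gm.PkB.goalB Pool.Agent.Helper43.Gm.PkC.goalC goalR1
theorem goalR3 : GoalR3 :=
  PkR3.goalR3 Pool.Agent.Helper43.Gm.PkB.goalB Pool.Agent.Helper43.Gm.PkC.goalC goalR0 goalR1
theorem goalR4 : GoalR4 := PkR4.goalR4 Pool.Agent.Helper43.Gm.PkA.goalA goalR2 goalR3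

/-- the window theorem in which the window depends only on the small multiplicities -/
theorem main_small : GoalR5 := PkR5.goalR5 goalR4

/-- the window theorem for graded sequences -/
theorem main_graded : GoalR6 := PkR6.goalR6 main_small

theorem goalR7 : GoalR7 := PkR7.goalR7 main_graded

/-- almost all sequences -/
theorem main_almost_all : GoalR9 :=
  PkR9.goalR9 goalR7 (PkR8b.goalR8b PkR8a.goalR8a) (PkR8c.goalR8c PkR8a.goalR8a)

end Pool.Agent.Helper43.Gr
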